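import Pool.Agent.H490R3.LH.Fin1

set_option autoImplicit false

/-!
# A co-sparse set in `NP` which is not in `L₂`, relative to a random oracle
-/

namespace Pool.Agent.Results.MP_2bf3f9_lc.RandomOracle

open MeasureTheory Pool.Agent.H628R3.RO Pool.Agent.H490R3.LH

/-- For almost every oracle `X` there is, relative to `X`, a co-sparse set in `NP` which is not in
the class `L₂` (but in the class `L̂₃`). -/
theorem result : ∀ᵐ X ∂randomOracle, ∃ A : Set (List Bool),
    IsNP X A ∧ Sparse Aᶜ ∧ A ∉ Low X 2 ∧ A ∈ LowD X 3 := by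
  filter_upwards [main_one] with X h
  exact ⟨CC X, h.2.2.2.2.1, h.2.2.2.2.2, h.2.2.1.2.1, h.2.2.1.1⟩

end Pool.Agent.Results.MP_2bf3f9_lc.RandomOracle
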